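import Pool.Agent.R542.SR.Mem

/-!
# Star colouring with `p + 2` colours of `K_{1,p+1}`-free `2p`-regular graphs is NP-complete

For every `p ≥ 3`, the problem whether a graph has a star colouring with `p + 2` colours is in NP,
and it is NP-hard for inputs that are `2p`-regular and have no induced star with `p + 1` leaves.
-/

set_option autoImplicit false

namespace Pool.Agent.Results.MP_709f11_lc.StarColouringComplete

open Pool.Agent.NPC Pool.Agent.H692R2 Pool.Agent.H673R2 Pool.Agent.NPC.R542.SR

theorem result (p : ℕ) (hp : 3 ≤ p) :
    InNPP (StarColourable (p + 2)) ∧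
    NPHardOn (fun G : FinGraph => Regular (2 * p) G ∧ NoStar (p + 1) G)
      (StarColourable (p + 2)) :=
  ⟨inNP (p + 2) (by omega), hard p hp⟩

end Pool.Agent.Results.MP_709f11_lc.StarColouringComplete
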